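import Pool.Agent.TH964.FP.DupMain

/-!
MP_043404_co (Rodney): duplexes in the affine extensions of an arbitrary Latin square by abelian
groups of odd order.

The definitions used:

* `IsLatin L` (`Pool/Agent/TH964/HP/Ext.lean`): every symbol occurs exactly once in every row and
  every column;
* `HasDuplex P` (`Pool/Agent/TH964/FP/Duplex.lean`): there is a set of cells of `P` with exactly two
  cells in every row, in every column and on every symbol.

Idea: a transversal of an extension of `P` by the group of order two gives a duplex of `P`, and every
Latin square of order at least two has such an extension without the Hall-Paige obstruction. The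
theorem `MP_aa89df_co.AbelianExtensions` is applied to the extension.
-/

set_option autoImplicit false

namespace Pool.Agent.Results.MP_043404_co.AffineDuplexes

open TH964.HP TH964.FP

/-- For every `n ≥ 2` there is `m₀` such that for every Latin square `L` of order `n` and every
abelian group `G` of odd order at least `m₀` times its exponent all affine extensions of `L` by `G`
have duplexes. -/
theorem result (n : ℕ) (hn : 2 ≤ n) : ∃ m₀ : ℕ, ∀ L : Fin n → Fin n → Fin n, IsLatin L →
    ∀ (G : Type) [AddCommGroup G] [Finite G] (a b : Fin n → Fin n → ℕ) (θ : Fin n → Fin n → G),
      Odd (Nat.card G) → (∀ i j, (Nat.card G).Coprime (a i j)) →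
      (∀ i j, (Nat.card G).Coprime (b i j)) → m₀ * AddMonoid.exponent G ≤ Nat.card G →
      HasDuplex (fun r c : Fin n × G =>
        (L r.1 c.1, a r.1 c.1 • r.2 + b r.1 c.1 • c.2 + θ r.1 c.1)) :=
  affine_duplex n hn

end Pool.Agent.Results.MP_043404_co.AffineDuplexes
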