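import Pool.Agent.TH964.HC.Dup

/-!
MP_043404_co (Rodney): duplexes in the products of an arbitrary Latin square with groups.

The definitions used:

* `IsLatin L` (`Pool/Agent/TH964/HP/Ext.lean`): every symbol occurs exactly once in every row and
  every column;
* `HasDuplex P` (`Pool/Agent/TH964/FP/Duplex.lean`): there is a set of cells of `P` with exactly two
  cells in every row, in every column and on every symbol;
* `HasTransversal L` (`Pool/Agent/TH964/HP/Ext.lean`): there is a bijection `σ` from rows to columns
  such that `r ↦ L r (σ r)` is bijective; for the table of a group `Q` this means that `Q` has a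
  complete mapping.

Idea: a transversal of an extension of `P` by the group of order two gives a duplex of `P`, and every
Latin square of order at least two has such an extension without the Hall-Paige obstruction. The
theorem on transversals in products (files in `Pool/Agent/TH964/FP`) is applied to the extension.
-/

set_option autoImplicit false

namespace Pool.Agent.Results.MP_043404_co.ProductDuplexes

open TH964.HP TH964.FP

/-- For every `n ≥ 2` and all `m` outside a set of density zero, the products of all Latin squares
of order `n` with all groups of order `m` which are nilpotent, or solvable with `m` odd, have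
duplexes; the same holds for all groups with a normal subquotient `K ≤ G ⧸ N` isomorphic to the
additive group of a suitable finite field `F`, if `N` and `(G ⧸ N) ⧸ K` have complete mappings. -/
theorem result (n : ℕ) (hn : 2 ≤ n) :
    (∀ ε : ℝ, 0 < ε → ∃ X₀ : ℕ, ∀ X ≥ X₀,
      ({m : ℕ | m < X ∧ ∃ (G : Type) (_ : Group G) (_ : Finite G) (L : Fin n → Fin n → Fin n),
        (Group.IsNilpotent G ∨ (Odd m ∧ Group.IsSolvable G)) ∧ Nat.card G = m ∧ IsLatin L ∧
        ¬ HasDuplex (fun r c : Fin n × G => (L r.1 c.1, r.2 * c.2))}.ncard : ℝ) ≤ ε * X) ∧
    ∃ e₀ : ℕ, ∀ L : Fin n → Fin n → Fin n, IsLatin L →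
      ∀ (F G : Type) [Field F] [Finite F] [Group G] [Finite G] (N : Subgroup G) [N.Normal]
        (K : Subgroup (G ⧸ N)) [K.Normal] (e : ℕ),
        Nonempty (K ≃* Multiplicative F) → e₀ ≤ e → e ∣ Nat.card F - 1 →
        64 * e ^ 6 < Nat.card F →
        HasTransversal (fun x y : N => x * y) → HasTransversal (fun x y : (G ⧸ N) ⧸ K => x * y) →
        HasDuplex (fun r c : Fin n × G => (L r.1 c.1, r.2 * c.2)) :=
  ⟨TH964.HC.almost_all_duplex2 n hn, TH964.HC.group_duplex2 n hn⟩

end Pool.Agent.Results.MP_043404_co.ProductDuplexes
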